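import Pool.Agent.W662.CB.Stmts2
import Pool.Agent.W509.CB.E9

/-! Project CB2 (owner helper662), part Q6: the Fourier transform, both intertwining relations. -/

set_option autoImplicit false

open MeasureTheory Filter Topology Complex
open scoped InnerProductSpace ENNReal SchwartzMap FourierTransform

namespace Pool.Agent.W509.CB2

open Pool.Agent.W662.CB Pool.Agent.W509.CB

noncomputable section

variable {H : Type} [NormedAddCommGroup H] [InnerProductSpace ℂ H] [CompleteSpace H]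

omit [CompleteSpace H] in
theorem inv_shift (t : ℝ) (g : 𝓢(ℝ, H)) (w : ℝ) :
    (𝓕⁻ (g.compSubConstCLM ℂ t)) w =
      Complex.exp (2 * Real.pi * I * t * w) • ((𝓕⁻ g) w) := by
  rw [SchwartzMap.fourierInv_coe, SchwartzMap.fourierInv_coe, Real.fourierInv_eq_fourier_neg,
    Real.fourierInv_eq_fourier_neg, ← SchwartzMap.fourier_coe, ← SchwartzMap.fourier_coe,
    four_shift]
  congr 2
  push_cast
  ring

theorem mul_sch' (t : ℝ) (S' : LR H →L[ℂ] LR H)
    (hS' : IsMulOp (fun w : ℝ => Complex.exp (2 * Real.pi * I * t * w)) S')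
    (G1 G2 : 𝓢(ℝ, H)) (hG : ∀ w : ℝ, G1 w =
      Complex.exp (2 * Real.pi * I * t * w) • G2 w) : tl G1 = S' (tl G2) := by
  apply Lp.ext
  refine EventuallyEq.trans ?_ (hS' _).symm
  filter_upwards [tl_ae G1, tl_ae G2] with w k1 k3
  rw [k1, k3]
  exact hG w

theorem third (t : ℝ) (S S' : LR H →L[ℂ] LR H) (hS : IsShift t S)
    (hS' : IsMulOp (fun w : ℝ => Complex.exp (2 * Real.pi * I * t * w)) S') (f : LR H) :
    (Lp.fourierTransformₗᵢ ℝ H) (S' f) = S ((Lp.fourierTransformₗᵢ ℝ H) f) := by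
  have hSf : ∀ g : 𝓢(ℝ, H), S (g.toLp 2) = (g.compSubConstCLM ℂ t).toLp 2 := by
    intro g
    apply Lp.ext
    refine (hS _).trans ?_
    refine (shift_ae t (g.coeFn_toLp 2 volume)).trans ?_
    filter_upwards [(g.compSubConstCLM ℂ t).coeFn_toLp 2 volume] with s h2
    rw [h2, SchwartzMap.compSubConstCLM_apply]
  refine DenseRange.induction_on (p := fun f => (Lp.fourierTransformₗᵢ ℝ H) (S' f) =
    S ((Lp.fourierTransformₗᵢ ℝ H) f))
    (SchwartzMap.denseRange_toLpCLM (F := H) (μ := (volume : Measure ℝ)) (p := 2)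
      ENNReal.ofNat_ne_top) f ?_ ?_
  · exact isClosed_eq ((Lp.fourierTransformₗᵢ ℝ H).continuous.comp S'.continuous)
      (S.continuous.comp (Lp.fourierTransformₗᵢ ℝ H).continuous)
  · intro f0
    rw [SchwartzMap.toLpCLM_apply]
    set g : 𝓢(ℝ, H) := 𝓕 f0 with hg
    have hf0 : 𝓕⁻ g = f0 := FourierTransform.fourierInv_fourier_eq f0
    have e0 : tl (𝓕⁻ (g.compSubConstCLM ℂ t)) = S' (tl f0) := by
      refine mul_sch' t S' hS' _ _ fun w => ?_
      rw [inv_shift, hf0]
    have e1 : (Lp.fourierTransformₗᵢ ℝ H) (tl (𝓕⁻ (g.compSubConstCLM ℂ t))) =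
        (𝓕 (𝓕⁻ (g.compSubConstCLM ℂ t))).toLp 2 := SchwartzMap.toLp_fourier_eq _
    have e2 : (Lp.fourierTransformₗᵢ ℝ H) (tl f0) = (𝓕 f0).toLp 2 :=
      SchwartzMap.toLp_fourier_eq _
    have e3 : 𝓕 (𝓕⁻ (g.compSubConstCLM ℂ t)) = g.compSubConstCLM ℂ t :=
      FourierTransform.fourier_fourierInv_eq _
    change (Lp.fourierTransformₗᵢ ℝ H) (S' (tl f0)) = S ((Lp.fourierTransformₗᵢ ℝ H) (tl f0))
    rw [← e0, e1, e3, e2, ← hg, hSf]

theorem q6 : S_Q6 := by
  intro H _ _ _
  refine ⟨Lp.fourierTransformₗᵢ ℝ H, ?_, ?_, ?_⟩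
  · intro y S hS f
    have hSf : ∀ g : 𝓢(ℝ, H), S (g.toLp 2) = (g.postcompCLM y).toLp 2 := by
      intro g
      apply Lp.ext
      refine (hS _).trans ?_
      filter_upwards [g.coeFn_toLp 2 volume, (g.postcompCLM y).coeFn_toLp 2 volume] with s h1 h2
      rw [h1, h2, SchwartzMap.postcompCLM_apply]
    refine DenseRange.induction_on (p := fun f => (Lp.fourierTransformₗᵢ ℝ H) (S f) =
      S ((Lp.fourierTransformₗᵢ ℝ H) f))
      (SchwartzMap.denseRange_toLpCLM (F := H) (μ := (volume : Measure ℝ)) (p := 2)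
        ENNReal.ofNat_ne_top) f ?_ ?_
    · exact isClosed_eq ((Lp.fourierTransformₗᵢ ℝ H).continuous.comp S.continuous)
        (S.continuous.comp (Lp.fourierTransformₗᵢ ℝ H).continuous)
    · intro g
      rw [SchwartzMap.toLpCLM_apply]
      rw [hSf]
      have e1 : (Lp.fourierTransformₗᵢ ℝ H) ((g.postcompCLM y).toLp 2) =
        (𝓕 (g.postcompCLM y)).toLp 2 := SchwartzMap.toLp_fourier_eq _
      have e2 : (Lp.fourierTransformₗᵢ ℝ H) (g.toLp 2) = (𝓕 g).toLp 2 :=
        SchwartzMap.toLp_fourier_eq _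
      rw [e1, e2, hSf]
      congr 1
      ext w
      rw [four_post, SchwartzMap.postcompCLM_apply]
  · intro t S S' hS hS' f
    have hSf : ∀ g : 𝓢(ℝ, H), S (g.toLp 2) = (g.compSubConstCLM ℂ t).toLp 2 := by
      intro g
      apply Lp.ext
      refine (hS _).trans ?_
      refine (shift_ae t (g.coeFn_toLp 2 volume)).trans ?_
      filter_upwards [(g.compSubConstCLM ℂ t).coeFn_toLp 2 volume] with s h2
      rw [h2, SchwartzMap.compSubConstCLM_apply]
    refine DenseRange.induction_on (p := fun f => (Lp.fourierTransformₗᵢ ℝ H) (S f) =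
      S' ((Lp.fourierTransformₗᵢ ℝ H) f))
      (SchwartzMap.denseRange_toLpCLM (F := H) (μ := (volume : Measure ℝ)) (p := 2)
        ENNReal.ofNat_ne_top) f ?_ ?_
    · exact isClosed_eq ((Lp.fourierTransformₗᵢ ℝ H).continuous.comp S.continuous)
        (S'.continuous.comp (Lp.fourierTransformₗᵢ ℝ H).continuous)
    · intro g
      rw [SchwartzMap.toLpCLM_apply]
      rw [hSf]
      have e1 : (Lp.fourierTransformₗᵢ ℝ H) ((g.compSubConstCLM ℂ t).toLp 2) =
        (𝓕 (g.compSubConstCLM ℂ t)).toLp 2 := SchwartzMap.toLp_fourier_eq _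
      have e2 : (Lp.fourierTransformₗᵢ ℝ H) (g.toLp 2) = (𝓕 g).toLp 2 :=
        SchwartzMap.toLp_fourier_eq _
      rw [e1, e2]
      exact mul_sch t S' hS' _ _ (four_shift t g)
  · intro t S S' hS hS' f
    exact third t S S' hS hS' f

end

end Pool.Agent.W509.CB2
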